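import Pool.Agent.Helper33.KD4.Wt

/-! KD project (MP_019250_an), Part IV.0: closure under kinetic translation and scaling. -/

namespace KD.IV

open MeasureTheory Set Filter Topology

/-- **IV.0** closure under kinetic translation and scaling -/
theorem Kern.tra {d : ℕ} {s lam Lam M0 r t0 : ℝ} {x0 v0 : Vd d} {a : ℝ → Vd d → Vd d → Vd d → ℝ}
    (hr : 0 < r) (hr1 : r ≤ 1) (hK : Kern lam Lam M0 a) :
    Kern lam Lam M0 (tra s r t0 x0 v0 a) where
  meas t x v := (hK.meas _ _ _).comp (measurable_const_smul r)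
  even t x v w := by
    simp only [KD.tra, smul_neg]
    exact hK.even _ _ _ _
  lo t x v w := hK.lo _ _ _ _
  hi t x v w := hK.hi _ _ _ _
  bv t x v w hw n := by
    simp only [KD.tra]
    have h := hK.bv (tt s r t0 t) (tx s r x0 v0 t x) (tv r v0 v) (r • w) (by
      rw [norm_smul, Real.norm_of_nonneg hr.le]
      nlinarith [norm_nonneg w]) n
    simp only [smul_comm r]
    exact h

/-- joint differentiability in `(t, x)` -/
theorem joint_deriv {d : ℕ} {f ft : ℝ → Vd d → Vd d → ℝ}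
    {fx fv : ℝ → Vd d → Vd d → (Vd d →L[ℝ] ℝ)} {fvv : ℝ → Vd d → Vd d → (Vd d →L[ℝ] Vd d →L[ℝ] ℝ)}
    {D : Set (ℝ × Vd d × Vd d)} (hR : Reg f ft fx fv fvv D) {t : ℝ} {x v : Vd d}
    (hp : (t, x, v) ∈ D) :
    HasFDerivAt (fun q : ℝ × Vd d => f q.1 q.2 v)
      ((ContinuousLinearMap.toSpanSingleton ℝ (ft t x v)).coprod (fx t x v)) (t, x) := by
  have hc : Continuous (fun q : ℝ × Vd d => ((q.1, q.2, v) : ℝ × Vd d × Vd d)) := by fun_prop
  have hU : ∀ᶠ q : ℝ × Vd d in 𝓝 (t, x), (q.1, q.2, v) ∈ D :=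
    hc.continuousAt.eventually_mem (hR.opn.mem_nhds hp)
  have key := hasStrictFDerivAt_uncurry_coprod (𝕜 := ℝ) (u := (t, x)) (f := fun t x => f t x v)
    (f₁ := fun t x => ContinuousLinearMap.toSpanSingleton ℝ (ft t x v))
    (f₂ := fun t x => fx t x v) ?_ ?_ ?_ ?_
  · exact key.hasFDerivAt
  · filter_upwards [hU] with q hq
    exact (hR.dt _ hq).hasFDerivAt
  · filter_upwards [hU] with q hq
    exact hR.dx _ hq
  · have h1 : ContinuousAt (fun q : ℝ × Vd d => ft q.1 q.2 v) (t, x) :=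
      ContinuousAt.comp (g := fun p : ℝ × Vd d × Vd d => ft p.1 p.2.1 p.2.2)
        (f := fun q : ℝ × Vd d => ((q.1, q.2, v) : ℝ × Vd d × Vd d))
        (hR.ct.continuousAt (hR.opn.mem_nhds hp)) hc.continuousAt
    exact (ContinuousLinearMap.toSpanSingletonCLE (𝕜 := ℝ) (E := ℝ)).continuous.continuousAt.comp h1
  · exact ContinuousAt.comp (g := fun p : ℝ × Vd d × Vd d => fx p.1 p.2.1 p.2.2)
        (f := fun q : ℝ × Vd d => ((q.1, q.2, v) : ℝ × Vd d × Vd d))
        (hR.cx.continuousAt (hR.opn.mem_nhds hp)) hc.continuousAt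

theorem Super.trf {d : ℕ} {s η r t0 : ℝ} {x0 v0 : Vd d} {a : ℝ → Vd d → Vd d → Vd d → ℝ}
    {f : ℝ → Vd d → Vd d → ℝ} {D : Set (ℝ × Vd d × Vd d)} (hr : 0 < r) (hS : Super s η a f D) :
    Super s (r ^ (2 * s) * η) (tra s r t0 x0 v0 a) (trf s r t0 x0 v0 f) (trD s r t0 x0 v0 D) := by
  obtain ⟨ft, fx, fv, fvv, hR, hsup⟩ := hS.sup
  obtain ⟨A, hA⟩ := hS.bdd
  -- the transformation
  have hΦ : Continuous (fun p : ℝ × Vd d × Vd d =>
      ((tt s r t0 p.1, tx s r x0 v0 p.1 p.2.1, tv r v0 p.2.2) : ℝ × Vd d × Vd d)) := by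
    unfold tt tx tv
    fun_prop
  have hmaps : MapsTo (fun p : ℝ × Vd d × Vd d =>
      ((tt s r t0 p.1, tx s r x0 v0 p.1 p.2.1, tv r v0 p.2.2) : ℝ × Vd d × Vd d))
      (trD s r t0 x0 v0 D) D := fun p hp => hp
  refine ⟨fun t x => ?_, ⟨A, fun t x v => hA _ _ _⟩, ?_⟩
  · have hv : Measurable (fun v : Vd d => tv r v0 v) := by
      unfold tv
      fun_prop
    exact (hS.meas _ _).comp hv
  · refine ⟨fun t x v => r ^ (2 * s) * (ft (tt s r t0 t) (tx s r x0 v0 t x) (tv r v0 v) +
        fx (tt s r t0 t) (tx s r x0 v0 t x) (tv r v0 v) v0),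
      fun t x v => r ^ (1 + 2 * s) • fx (tt s r t0 t) (tx s r x0 v0 t x) (tv r v0 v),
      fun t x v => r • fv (tt s r t0 t) (tx s r x0 v0 t x) (tv r v0 v),
      fun t x v => (r * r) • fvv (tt s r t0 t) (tx s r x0 v0 t x) (tv r v0 v), ?_, ?_⟩
    · refine ⟨hR.opn.preimage hΦ, hR.cf.comp hΦ.continuousOn hmaps, ?_, ?_, ?_, ?_, ?_, ?_, ?_, ?_⟩
      · rintro ⟨t, x, v⟩ hp
        have hD : (tt s r t0 t, tx s r x0 v0 t x, tv r v0 v) ∈ D := hp
        have h1 := joint_deriv hR hD
        have h2 : HasDerivAt (fun t => ((tt s r t0 t, tx s r x0 v0 t x) : ℝ × Vd d))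
            (r ^ (2 * s), r ^ (2 * s) • v0) t := by
          refine HasDerivAt.prodMk ?_ ?_
          · unfold tt
            simpa using ((hasDerivAt_id t).const_mul (r ^ (2 * s))).const_add t0
          · unfold tx
            have h3 : HasDerivAt (fun t : ℝ => (r ^ (2 * s) * t) • v0) (r ^ (2 * s) • v0) t := by
              simpa using ((hasDerivAt_id t).const_mul (r ^ (2 * s))).smul_const v0
            exact h3.const_add _
        have h3 := h1.comp_hasDerivAt t h2
        have h4 : ((ContinuousLinearMap.toSpanSingleton ℝ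
            (ft (tt s r t0 t) (tx s r x0 v0 t x) (tv r v0 v))).coprod
            (fx (tt s r t0 t) (tx s r x0 v0 t x) (tv r v0 v))) (r ^ (2 * s), r ^ (2 * s) • v0) =
            r ^ (2 * s) * (ft (tt s r t0 t) (tx s r x0 v0 t x) (tv r v0 v) +
            fx (tt s r t0 t) (tx s r x0 v0 t x) (tv r v0 v) v0) := by
          simp only [ContinuousLinearMap.coprod_apply, ContinuousLinearMap.toSpanSingleton_apply,
            map_smul, smul_eq_mul]
          ring
        rw [h4] at h3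
        exact h3
      · rintro ⟨t, x, v⟩ hp
        have hD : (tt s r t0 t, tx s r x0 v0 t x, tv r v0 v) ∈ D := hp
        have h1 := hR.dx _ hD
        have h2 : HasFDerivAt (fun x => tx s r x0 v0 t x)
            (r ^ (1 + 2 * s) • ContinuousLinearMap.id ℝ (Vd d)) x := by
          unfold tx
          exact (((hasFDerivAt_id x).const_smul (r ^ (1 + 2 * s))).const_add x0).add_const _
        have h3 := HasFDerivAt.comp x h1 h2
        have h4 : (fx (tt s r t0 t) (tx s r x0 v0 t x) (tv r v0 v)).comp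
            (r ^ (1 + 2 * s) • ContinuousLinearMap.id ℝ (Vd d)) =
            r ^ (1 + 2 * s) • fx (tt s r t0 t) (tx s r x0 v0 t x) (tv r v0 v) := by
          ext w
          simp
        exact h4 ▸ h3
      · rintro ⟨t, x, v⟩ hp
        have hD : (tt s r t0 t, tx s r x0 v0 t x, tv r v0 v) ∈ D := hp
        have h1 := hR.dv _ hD
        have h2 : HasFDerivAt (fun v => tv r v0 v) (r • ContinuousLinearMap.id ℝ (Vd d)) v := by
          unfold tv
          exact ((hasFDerivAt_id v).const_smul r).const_add v0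
        have h3 := HasFDerivAt.comp v h1 h2
        have h4 : (fv (tt s r t0 t) (tx s r x0 v0 t x) (tv r v0 v)).comp
            (r • ContinuousLinearMap.id ℝ (Vd d)) =
            r • fv (tt s r t0 t) (tx s r x0 v0 t x) (tv r v0 v) := by
          ext w
          simp
        exact h4 ▸ h3
      · rintro ⟨t, x, v⟩ hp
        have hD : (tt s r t0 t, tx s r x0 v0 t x, tv r v0 v) ∈ D := hp
        have h1 := hR.dvv _ hD
        have h2 : HasFDerivAt (fun v => tv r v0 v) (r • ContinuousLinearMap.id ℝ (Vd d)) v := by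
          unfold tv
          exact ((hasFDerivAt_id v).const_smul r).const_add v0
        have h3 := (HasFDerivAt.comp v h1 h2).const_smul r
        have h4 : r • (fvv (tt s r t0 t) (tx s r x0 v0 t x) (tv r v0 v)).comp
            (r • ContinuousLinearMap.id ℝ (Vd d)) =
            (r * r) • fvv (tt s r t0 t) (tx s r x0 v0 t x) (tv r v0 v) := by
          ext w w'
          simp [mul_assoc]
        exact h4 ▸ h3
      · have h1 := hR.ct.comp hΦ.continuousOn hmaps
        have h2 := hR.cx.comp hΦ.continuousOn hmaps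
        exact continuousOn_const.mul (h1.add (h2.clm_apply continuousOn_const))
      · exact (hR.cx.comp hΦ.continuousOn hmaps).const_smul (r ^ (1 + 2 * s))
      · exact (hR.cv.comp hΦ.continuousOn hmaps).const_smul r
      · exact (hR.cvv.comp hΦ.continuousOn hmaps).const_smul (r * r)
    · rintro ⟨t, x, v⟩ hp
      have hD : (tt s r t0 t, tx s r x0 v0 t x, tv r v0 v) ∈ D := hp
      have h1 := hsup _ hD
      have h2 : Lop s (KD.tra s r t0 x0 v0 a) (KD.trf s r t0 x0 v0 f) t x v =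
          r ^ (2 * s) * Lop s a f (tt s r t0 t) (tx s r x0 v0 t x) (tv r v0 v) := by
        rw [Lop_eq, Lop_eq]
        exact LL_scale s hr (a (tt s r t0 t) (tx s r x0 v0 t x) (tv r v0 v))
          (f (tt s r t0 t) (tx s r x0 v0 t x)) v0 v
      have h3 : r ^ (1 + 2 * s) = r ^ (2 * s) * r := by
        rw [Real.rpow_add hr, Real.rpow_one, mul_comm]
      have h4 : fx (tt s r t0 t) (tx s r x0 v0 t x) (tv r v0 v) (tv r v0 v) =
          fx (tt s r t0 t) (tx s r x0 v0 t x) (tv r v0 v) v0 +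
          r * fx (tt s r t0 t) (tx s r x0 v0 t x) (tv r v0 v) v := by
        conv_lhs => rw [show (fx (tt s r t0 t) (tx s r x0 v0 t x) (tv r v0 v)) (tv r v0 v) =
          (fx (tt s r t0 t) (tx s r x0 v0 t x) (tv r v0 v)) (v0 + r • v) from rfl]
        rw [map_add, map_smul, smul_eq_mul]
      have h5 : 0 < r ^ (2 * s) := Real.rpow_pos_of_pos hr _
      simp only at h1 ⊢
      rw [h2]
      have h6 : (r ^ (1 + 2 * s) • fx (tt s r t0 t) (tx s r x0 v0 t x) (tv r v0 v)) v =
          r ^ (2 * s) * (r * fx (tt s r t0 t) (tx s r x0 v0 t x) (tv r v0 v) v) := by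
        rw [h3]
        simp [mul_assoc]
      rw [h6]
      rw [h4] at h1
      have h7 := mul_le_mul_of_nonneg_left h1 h5.le
      linarith

theorem Super.smul {d : ℕ} {s η c : ℝ} {a : ℝ → Vd d → Vd d → Vd d → ℝ}
    {f : ℝ → Vd d → Vd d → ℝ} {D : Set (ℝ × Vd d × Vd d)} (hc : 0 < c) (hS : Super s η a f D) :
    Super s (c * η) a (fun t x v => c * f t x v) D := by
  obtain ⟨ft, fx, fv, fvv, hR, hsup⟩ := hS.sup
  obtain ⟨A, hA⟩ := hS.bdd
  refine ⟨fun t x => (hS.meas t x).const_mul c, ⟨c * A, fun t x v => ?_⟩, fun t x v => c * ft t x v,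
    fun t x v => c • fx t x v, fun t x v => c • fv t x v, fun t x v => c • fvv t x v, ?_, ?_⟩
  · rw [abs_mul, abs_of_pos hc]
    exact mul_le_mul_of_nonneg_left (hA t x v) hc.le
  · refine ⟨hR.opn, continuousOn_const.mul hR.cf, fun p hp => (hR.dt p hp).const_mul c,
      fun p hp => (hR.dx p hp).const_mul c, fun p hp => (hR.dv p hp).const_mul c,
      fun p hp => (hR.dvv p hp).const_smul c, continuousOn_const.mul hR.ct, hR.cx.const_smul c,
      hR.cv.const_smul c, hR.cvv.const_smul c⟩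
  · intro p hp
    have h1 := hsup p hp
    have h2 : Lop s a (fun t x v => c * f t x v) p.1 p.2.1 p.2.2 =
        c * Lop s a f p.1 p.2.1 p.2.2 := by
      unfold Lop
      have e : (fun w : Vd d => (c * f p.1 p.2.1 (p.2.2 + w) + c * f p.1 p.2.1 (p.2.2 - w) -
          2 * (c * f p.1 p.2.1 p.2.2)) * a p.1 p.2.1 p.2.2 w * ‖w‖ ^ (-((d : ℝ) + 2 * s))) =
          fun w => c * ((f p.1 p.2.1 (p.2.2 + w) + f p.1 p.2.1 (p.2.2 - w) -
          2 * f p.1 p.2.1 p.2.2) * a p.1 p.2.1 p.2.2 w * ‖w‖ ^ (-((d : ℝ) + 2 * s))) := by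
        funext w
        ring
      rw [e, integral_const_mul]
      ring
    rw [h2]
    have h3 := mul_le_mul_of_nonneg_left h1 hc.le
    simp only [ContinuousLinearMap.smul_apply, smul_eq_mul]
    linarith

theorem Super.add_const {d : ℕ} {s η c : ℝ} {a : ℝ → Vd d → Vd d → Vd d → ℝ}
    {f : ℝ → Vd d → Vd d → ℝ} {D : Set (ℝ × Vd d × Vd d)} (hS : Super s η a f D) :
    Super s η a (fun t x v => f t x v + c) D := by
  obtain ⟨ft, fx, fv, fvv, hR, hsup⟩ := hS.sup
  obtain ⟨A, hA⟩ := hS.bdd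
  refine ⟨fun t x => (hS.meas t x).add_const c, ⟨A + |c|, fun t x v => ?_⟩, ft, fx, fv, fvv, ?_, ?_⟩
  · exact (abs_add_le _ _).trans (add_le_add (hA t x v) le_rfl)
  · refine ⟨hR.opn, hR.cf.add continuousOn_const, fun p hp => (hR.dt p hp).add_const c,
      fun p hp => (hR.dx p hp).add_const c, fun p hp => (hR.dv p hp).add_const c,
      hR.dvv, hR.ct, hR.cx, hR.cv, hR.cvv⟩
  · intro p hp
    have h1 := hsup p hp
    have h2 : Lop s a (fun t x v => f t x v + c) p.1 p.2.1 p.2.2 =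
        Lop s a f p.1 p.2.1 p.2.2 := by
      unfold Lop
      congr 2
      funext w
      ring
    rw [h2]
    exact h1

theorem Super.mono {d : ℕ} {s η η' : ℝ} {a : ℝ → Vd d → Vd d → Vd d → ℝ}
    {f : ℝ → Vd d → Vd d → ℝ} {D D' : Set (ℝ × Vd d × Vd d)} (hη : η ≤ η') (hD' : IsOpen D')
    (hDD : D' ⊆ D) (hS : Super s η a f D) : Super s η' a f D' := by
  obtain ⟨ft, fx, fv, fvv, hR, hsup⟩ := hS.sup
  refine ⟨hS.meas, hS.bdd, ft, fx, fv, fvv, ?_, ?_⟩
  · exact ⟨hD', hR.cf.mono hDD, fun p hp => hR.dt p (hDD hp), fun p hp => hR.dx p (hDD hp),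
      fun p hp => hR.dv p (hDD hp), fun p hp => hR.dvv p (hDD hp), hR.ct.mono hDD, hR.cx.mono hDD,
      hR.cv.mono hDD, hR.cvv.mono hDD⟩
  · intro p hp
    have h1 := hsup p (hDD hp)
    linarith

end KD.IV
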